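import Pool.Agent.SteinTame.Fields

/-!
A negative answer to Q2: a Stein manifold (`𝔻 × ℂ²`) with a tame set and transitive holomorphic
automorphism group that does not have the density property.
-/

open scoped Manifold ContDiff Topology
open Pool.Agent.SteinTame

namespace Pool.Agent.Results.MP_2740df_an.NoDensity

/-- There is a Stein manifold of dimension three which contains a tame set and whose holomorphic
automorphism group acts transitively, but which does not have the density property. -/
theorem result :
    ∃ (X : Type) (_ : TopologicalSpace X) (_ : ChartedSpace (EuclideanSpace ℂ (Fin 3)) X)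
      (_ : IsManifold 𝓘(ℂ, EuclideanSpace ℂ (Fin 3)) ω X),
      IsStein (EuclideanSpace ℂ (Fin 3)) X ∧
      (∃ A : Set X, IsTame (EuclideanSpace ℂ (Fin 3)) X A) ∧
      AutTransitive (EuclideanSpace ℂ (Fin 3)) X ∧
      ¬ HasDensityProperty (EuclideanSpace ℂ (Fin 3)) X :=
  ⟨DC, inferInstance, inferInstance, inferInstance, isStein_DC, ⟨_, isTame_range_pt⟩,
    autTransitive_DC, not_hasDensityProperty_DC⟩

end Pool.Agent.Results.MP_2740df_an.NoDensity
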